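import Pool.Agent.Helper35.PQF.St

/-! Project PQF (MP_d112a4_gt), module LN: length of a conjugacy class -/

set_option autoImplicit false

namespace Pool.Agent.Helper28.PM

open Pool.Agent.Helper35.PM

theorem ln (hs2 : St_HS2) : St_LN := by
  intro Γ _ ρ γ
  obtain ⟨-, -, -, h4, -, -⟩ := hs2
  have h : IsConj γ (Quotient.out (ConjClasses.mk γ)) := by
    rw [← ConjClasses.mk_eq_mk_iff_isConj]
    exact (Quotient.out_eq (ConjClasses.mk γ)).symm
  obtain ⟨c, hc⟩ := isConj_iff.mp h
  unfold len
  rw [← hc, map_mul, map_mul, map_inv]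
  exact h4 _ _

end Pool.Agent.Helper28.PM
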